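import Pool.Agent.V11269.RK5

/-!
# MP_bc03d6_nt

The weighted Khintchine law for random sequences in the unit cube, uniformly in the tuple `Ψ`.
-/

namespace Pool.Agent.Results.MP_bc03d6_nt.UniformKhintchine

open MeasureTheory ProbabilityTheory Finset Filter Pool.Agent.V11269.RK

lemma main_bound {n : ℕ} (hn : 1 ≤ n) {ω : ℕ → (Fin n → ℝ)} {δ : ℝ} (hδ : 0 < δ) (hδ1 : δ < 1)
    (hω : ∀ᶠ l in atTop, ω ∉ badAll n δ l) {Ψ : Fin n → ℕ → ℝ}
    (hanti : ∀ i, Antitone (Ψ i)) (hpos : ∀ i j, 0 < Ψ i j)
    (hdiv : ¬ Summable (fun j => ∏ i, Ψ i j)) :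
    (1 - δ) / (1 + δ) ≤ (cube n).real (W ω Ψ) := by
  classical
  have hδ' : 0 < 1 - δ := by linarith
  obtain ⟨K0, hK0⟩ := eventually_atTop.1 hω
  choose a ha1 ha2 ha3 using fun k : ℕ => choose_vec hn k (fun i => Ψ i (2 ^ (k + 1)))
    (fun i => hpos i _)
  set v : ℕ → ℝ := fun k => 2 ^ k * pr (a k) with hv
  have hv0 : ∀ k, 0 < v k := fun k => mul_pos (by positivity) (pr_pos _)
  have hvdiv : ¬ Summable v := by
    intro h
    apply not_summable_min (div_seq hanti hpos hdiv)
    apply Summable.of_nonneg_of_le (fun k => ?_) (fun k => ha3 k) h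
    apply le_min zero_le_one
    apply mul_nonneg (by positivity)
    apply Finset.prod_nonneg
    intro i _
    have := hpos i (2 ^ (k + 1))
    have : 0 < min (Ψ i (2 ^ (k + 1))) 1 := lt_min this one_pos
    linarith
  set gd : ℕ → Prop := fun k => 2 * ∑ i, a k i ≤ 3 * k with hgd
  set s : ℝ := 1 / √2 with hs
  have hs0 : 0 < s := by positivity
  have hs2 : s ^ 2 = 1 / 2 := by
    rw [hs, div_pow, one_pow, Real.sq_sqrt (by norm_num)]
  have hs1 : s < 1 := by nlinarith
  -- restricting to good k
  have hv'div : ¬ Summable (fun k => if gd k then v k else 0) := by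
    intro h
    apply hvdiv
    have h1 : Summable (fun k => if gd k then 0 else v k) := by
      apply Summable.of_nonneg_of_le _ _ (summable_geometric_of_lt_one hs0.le hs1)
      · intro k; split_ifs
        · exact le_rfl
        · exact (hv0 k).le
      · intro k
        split_ifs with h2
        · positivity
        · rw [hgd, not_le] at h2
          obtain ⟨e, he⟩ : ∃ e, ∑ i, a k i = k + e := ⟨∑ i, a k i - k, by omega⟩
          rw [hv]
          dsimp only
          unfold pr
          rw [he, pow_add, ← mul_assoc, ← mul_pow]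
          norm_num
          rw [show (1 / 2 : ℝ) ^ e = s ^ (2 * e) by rw [pow_mul, hs2]]
          exact pow_le_pow_of_le_one hs0.le hs1.le (by omega)
    have h2 := h.add h1
    apply h2.congr
    intro k
    split_ifs <;> simp
  -- the events
  set E : ℕ → Set (Fin n → ℝ) := fun k => if gd k ∧ K0 ≤ k then HH (a k) (Bk k) ω else ∅ with hE
  have hEm : ∀ k, MeasurableSet (E k) := by
    intro k
    rw [hE]
    dsimp only
    split_ifs
    · exact HH_meas _ _ _
    · exact MeasurableSet.empty
  have hlow : ∀ k, gd k → K0 ≤ k → (1 - δ) * hp k (a k) < (cube n).real (HH (a k) (Bk k) ω) := by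
    intro k h1 h2
    have h3 := hK0 k h2
    unfold badAll at h3
    rw [Set.mem_union, not_or] at h3
    have h4 := h3.1
    simp only [Set.mem_iUnion, not_exists] at h4
    have h5 := h4 (a k) (mem_RR (ha2 k) h1)
    unfold bad1 at h5
    rw [Set.mem_ofPred_eq, not_le, abs_lt] at h5
    linarith [h5.2]
  have hpair : ∀ k l, k < l → (cube n).real (E k ∩ E l) ≤
      (1 + δ) / (1 - δ) * ((cube n).real (E k) * (cube n).real (E l)) := by
    intro k l hkl
    by_cases hk : gd k ∧ K0 ≤ k
    · by_cases hl : gd l ∧ K0 ≤ l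
      · have h3 := hK0 l hl.2
        unfold badAll at h3
        rw [Set.mem_union, not_or] at h3
        have h4 := h3.2
        simp only [Set.mem_iUnion, not_exists] at h4
        have h5 := h4 k (mem_range.2 hkl) (a k) (mem_RR (ha2 k) hk.1) (a l)
          (mem_RR (ha2 l) hl.1)
        unfold bad2 at h5
        rw [Set.mem_ofPred_eq, not_and, not_le] at h5
        have h6 := h5 (hlow k hk.1 hk.2).le
        rw [abs_lt] at h6
        have h7 := hlow l hl.1 hl.2
        have hEk : E k = HH (a k) (Bk k) ω := by rw [hE]; dsimp only; rw [if_pos hk]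
        have hEl : E l = HH (a l) (Bk l) ω := by rw [hE]; dsimp only; rw [if_pos hl]
        rw [hEk, hEl]
        set x := (cube n).real (HH (a k) (Bk k) ω) with hx
        set y := (cube n).real (HH (a l) (Bk l) ω) with hy
        have hx0 : 0 ≤ x := measureReal_nonneg
        have h8 : hp l (a l) ≤ y / (1 - δ) := by
          rw [le_div_iff₀ hδ']; linarith
        have h9 : (cube n).real (HH (a k) (Bk k) ω ∩ HH (a l) (Bk l) ω) ≤
            (1 + δ) * (hp l (a l) * x) := by linarith [h6.1]
        refine h9.trans ?_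
        calc (1 + δ) * (hp l (a l) * x) ≤ (1 + δ) * (y / (1 - δ) * x) := by gcongr
          _ = _ := by ring
      · have hEl : E l = ∅ := by rw [hE]; dsimp only; rw [if_neg hl]
        rw [hEl, Set.inter_empty, measureReal_empty]
        positivity
    · have hEk : E k = ∅ := by rw [hE]; dsimp only; rw [if_neg hk]
      rw [hEk, Set.empty_inter, measureReal_empty]
      positivity
  have hEdiv : ¬ Summable (fun k => (cube n).real (E k)) := by
    intro h
    apply hv'div
    rw [← summable_nat_add_iff K0]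
    rw [← summable_nat_add_iff K0] at h
    apply Summable.of_nonneg_of_le _ _ (h.mul_left (2 / (1 - δ)))
    · intro k
      split_ifs
      · exact (hv0 _).le
      · exact le_rfl
    · intro k
      split_ifs with h1
      · have hEk : E (k + K0) = HH (a (k + K0)) (Bk (k + K0)) ω := by
          rw [hE]; dsimp only; rw [if_pos ⟨h1, by omega⟩]
        rw [hEk]
        have h2 := hlow (k + K0) h1 (by omega)
        have h3 := hp_lower (ha2 (k + K0))
        have h4 : v (k + K0) / 2 ≤ hp (k + K0) (a (k + K0)) := h3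
        have h5 : (1 - δ) * (v (k + K0) / 2) ≤ (cube n).real (HH (a (k + K0)) (Bk (k + K0)) ω) := by
          nlinarith
        calc v (k + K0) = 2 / (1 - δ) * ((1 - δ) * (v (k + K0) / 2)) := by field_simp
          _ ≤ _ := by gcongr
      · positivity
  have hKS := KS (cube n) hEm (show 0 < (1 + δ) / (1 - δ) by positivity) hpair hEdiv
  rw [one_div_div] at hKS
  refine hKS.trans (measureReal_mono (sub_W hanti ha1 ?_) (measure_ne_top _ _))
  intro k
  rw [hE]
  dsimp only
  split_ifs
  · exact subset_rfl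
  · exact Set.empty_subset _

theorem result (n : ℕ) (hn : 1 ≤ n) :
    ∀ᵐ ω ∂(Measure.infinitePi
      (fun _ : ℕ => (volume.restrict (Set.Icc 0 1) : Measure (Fin n → ℝ)))),
      ∀ Ψ : Fin n → ℕ → ℝ, (∀ i, Antitone (Ψ i)) → (∀ i j, 0 < Ψ i j) →
        ¬ Summable (fun j => ∏ i, Ψ i j) → volume (W ω Ψ) = 1 := by
  have h1 : ∀ᵐ ω ∂(PP (cube n)), ∀ r : ℕ, ∀ᶠ l in atTop,
      ω ∉ badAll n (1 / ((r : ℝ) + 2)) l := by
    rw [ae_all_iff]
    intro r
    have hr : (0 : ℝ) ≤ r := Nat.cast_nonneg r
    apply ae_good (by positivity)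
    rw [div_lt_one (by positivity)]; linarith
  filter_upwards [h1] with ω hω Ψ hanti hpos hdiv
  have h2 : ∀ r : ℕ, ((r : ℝ) + 1) / (r + 3) ≤ (cube n).real (W ω Ψ) := by
    intro r
    have hr : (0 : ℝ) ≤ r := Nat.cast_nonneg r
    have h3 := main_bound hn (show 0 < 1 / ((r : ℝ) + 2) by positivity)
      (by rw [div_lt_one (by positivity)]; linarith) (hω r) hanti hpos hdiv
    refine le_trans (le_of_eq ?_) h3
    field_simp
    ring
  have h3 : 1 ≤ (cube n).real (W ω Ψ) := by
    by_contra hlt
    rw [not_le] at hlt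
    obtain ⟨r, hr⟩ := exists_nat_gt (2 / (1 - (cube n).real (W ω Ψ)))
    have h4 := h2 r
    rw [div_lt_iff₀ (by linarith)] at hr
    have hr0 : (0 : ℝ) ≤ r := Nat.cast_nonneg r
    rw [div_le_iff₀ (by positivity)] at h4
    nlinarith
  have h4 : (cube n) (W ω Ψ) = volume (W ω Ψ) := by
    apply Measure.restrict_eq_self
    intro x hx
    exact hx.1
  rw [← h4]
  apply le_antisymm prob_le_one
  have h5 : ENNReal.ofReal 1 ≤ ENNReal.ofReal ((cube n).real (W ω Ψ)) :=
    ENNReal.ofReal_le_ofReal h3
  rw [ENNReal.ofReal_one, measureReal_def, ENNReal.ofReal_toReal (measure_ne_top _ _)] at h5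
  exact h5

end Pool.Agent.Results.MP_bc03d6_nt.UniformKhintchine
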